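import Pool.Agent.V11273.PV.G13

/-!
# Families of motives with any Galois groups at arbitrary base points, in bounded degree and height

A family (`Family X ι`) is an algebraic connection `c ∂_i Y = Y B_i` over the affine space with coordinates `x_i`, `i ∈ X`,
with an invertible matrix `Y` of analytic solutions on a nonempty connected open set `U`: for example `Y` is the period
matrix (rows: locally constant Betti basis, columns: algebraic de Rham basis) of the fibres `M_x` of any family of (mixed)
motives over an open part of the affine space. `galois` is the group of the constant matrices `g` such that all polynomial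
relations over `ℂ[x]` between the entries of `Y` are relations between the entries of `g Y` (the differential Galois group,
which is the Zariski closure of the monodromy group for Gauss-Manin connections). No assumption is made on this group.

André's conjecture is about motives over arbitrary subfields of `ℂ`, for example the fibres `M_x` over `ℚ(x)` at arbitrary
complex points `x`, and says that the field generated by `x` and the periods `Y(x)` has transcendence degree at least the
dimension of the motivic Galois group. Here we take `x = h(z)`, where `z` is a point with coordinates in a number field and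
`h` is an arbitrary analytic map whose image has inner points (for instance the coordinates of `h` are exponentials, elliptic
functions, Gamma functions, or periods of other families). By a theorem of André the Mumford-Tate group of a general fibre
contains the identity component of the Galois group of the family, and for families with big monodromy it is generated by it
and the homotheties, with dimension `1 + dim galois`.

For finitely many families `F_j` and maps `h_j` we show that one can choose `dim galois (F_j)` of the coordinates of
`h_j(z_j)` and of the periods at `h_j(z_j)`, such that for all tuples of points `z_j` with coordinates in a number field,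
outside of few tuples, the `∑ dim galois (F_j)` chosen numbers satisfy no polynomial relation of bounded degree and height,
not even with coefficients in the ring generated by arbitrary fixed numbers (for instance by `2 π i`, or by the generators
of a field `k₀` and the periods of a motive `M₀` over `k₀`: the inequality passes in this sense from `M₀` to the sum of `M₀`
and of the fibres). With `2 π i` this is the inequality of André's conjecture for `⨁ M_{h_j(z_j)}`, in bounded degree and
height, for families with big monodromy, over bases of any dimension, at almost all these points.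
-/

set_option autoImplicit false

open Filter NumberField

namespace Pool.Agent.Results.MP_12eca1_ag.AnyMonodromyGroup

/-- an algebraic connection on the affine space `ℂ ^ X` with a fundamental matrix `Y` of analytic solutions on `U` -/
structure Family (X ι : Type) [Fintype X] [DecidableEq X] [Fintype ι] [DecidableEq ι] where
  /-- a nonempty connected open set -/
  U : Set (X → ℂ)
  isOpen : IsOpen U
  connected : IsPreconnected U
  nonempty : U.Nonempty
  /-- the matrix of the solutions (periods) -/
  Y : (X → ℂ) → Matrix ι ι ℂ
  analytic : ∀ a b, AnalyticOnNhd ℂ (fun x => Y x a b) U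
  det_ne : ∀ x ∈ U, (Y x).det ≠ 0
  /-- the common denominator of the connection -/
  c : MvPolynomial X ℂ
  c_ne : c ≠ 0
  /-- the numerators -/
  B : X → Matrix ι ι (MvPolynomial X ℂ)
  /-- `c ∂_i Y = Y B_i` -/
  eqn : ∀ x ∈ U, ∀ i a b, MvPolynomial.eval x c * fderiv ℂ (fun x => Y x a b) x (Pi.single i 1) =
    ∑ e, Y x a e * MvPolynomial.eval x (B i e b)

section
variable {X ι : Type} [Fintype X] [DecidableEq X] [Fintype ι] [DecidableEq ι]

/-- all polynomial relations between the entries of `Y` over `ℂ[x]` are relations between the entries of `g Y` -/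
def Preserves (F : Family X ι) (g : Matrix ι ι ℂ) : Prop :=
  ∀ p : MvPolynomial (ι × ι) (MvPolynomial X ℂ),
    (∀ x ∈ F.U, MvPolynomial.eval₂ (MvPolynomial.eval x) (fun v => F.Y x v.1 v.2) p = 0) →
    ∀ x ∈ F.U, MvPolynomial.eval₂ (MvPolynomial.eval x) (fun v => (g * F.Y x) v.1 v.2) p = 0

/-- the Galois group -/
def Family.galois (F : Family X ι) : Subgroup (GL ι ℂ) where
  carrier := {g | Preserves F (g : Matrix ι ι ℂ)}
  mul_mem' := fun ha hb => (Pool.Agent.V11273.PV.Gal F.U F.Y).mul_mem' ha hb
  one_mem' := (Pool.Agent.V11273.PV.Gal F.U F.Y).one_mem'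
  inv_mem' := fun ha => (Pool.Agent.V11273.PV.Gal F.U F.Y).inv_mem' ha

/-- the matrix entries in `V` are algebraically independent functions on `G` -/
def IndependentOn (G : Subgroup (GL ι ℂ)) (V : Finset (ι × ι)) : Prop :=
  ∀ p : MvPolynomial V ℂ, (∀ g ∈ G, MvPolynomial.eval (fun v => (g : Matrix ι ι ℂ) v.1.1 v.1.2) p = 0) → p = 0

/-- the dimension of the Zariski closure of `G`: the largest number of matrix entries which are algebraically independent
functions on `G` -/
noncomputable def dimension (G : Subgroup (GL ι ℂ)) : ℕ :=
  sSup {n | ∃ V : Finset (ι × ι), V.card = n ∧ IndependentOn G V}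

end

/-- quotients of two integers of `K`, all conjugates of which are at most `T` -/
def HeightLe (K : Type) [Field K] [NumberField K] (T : ℝ) (x : K) : Prop :=
  ∃ a b : 𝓞 K, b ≠ 0 ∧ house (a : K) ≤ T ∧ house (b : K) ≤ T ∧ x = a / b

/-- `S` is covered by at most `m` hypersurfaces of degree at most `D` -/
def CoveredBy {X : Type} (D m : ℕ) (S : Set (X → ℂ)) : Prop :=
  ∃ Φ : Finset (MvPolynomial X ℂ), Φ.card ≤ m ∧ (∀ P ∈ Φ, P ≠ 0 ∧ P.totalDegree ≤ D) ∧
    ∀ x ∈ S, ∃ P ∈ Φ, MvPolynomial.eval x P = 0

/-- the points of norm at most `k` at distance at least `1 / k` from the complement of `U` -/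
def Inner {X : Type} [Fintype X] (U : Set (X → ℂ)) (k : ℕ) : Set (X → ℂ) :=
  {z | ‖z‖ ≤ k ∧ Metric.ball z (k : ℝ)⁻¹ ⊆ U}

/-- the partial degrees of `P` are at most `k`, and its coefficients are `∑ ξ i * c i`, `i < k`, where the `c i` are
integers of `K`, all conjugates of which are at most `T ^ k` -/
def Small {σ : Type} (K : Type) [Field K] [NumberField K] (io : K →+* ℂ) (k : ℕ) (ξ : Fin k → ℂ) (T : ℝ)
    (P : MvPolynomial σ ℂ) : Prop :=
  (∀ y, P.degreeOf y ≤ k) ∧ ∀ m, ∃ c : Fin k → 𝓞 K, (∀ i (φ : K →+* ℂ), ‖φ (c i : K)‖ ≤ T ^ (k : ℝ)) ∧
    P.coeff m = ∑ i, ξ i * io (c i : K)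

section
variable {X ι : Type} [Fintype X] [DecidableEq X] [Fintype ι] [DecidableEq ι]

/-- an analytic map `h` from a nonempty connected open set `D` to the domain of the family, the image of which has inner
points -/
structure Map (F : Family X ι) where
  /-- the domain -/
  D : Set (X → ℂ)
  isOpen : IsOpen D
  connected : IsPreconnected D
  nonempty : D.Nonempty
  /-- the map -/
  h : (X → ℂ) → X → ℂ
  analytic : AnalyticOnNhd ℂ h D
  mapsTo : Set.MapsTo h D F.U
  inner : (interior (h '' D)).Nonempty

/-- the periods at the point `h z` and the coordinates of this point -/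
noncomputable def value {F : Family X ι} (m : Map F) (z : X → ℂ) : (ι × ι) ⊕ X → ℂ :=
  Sum.elim (fun v => F.Y (m.h z) v.1 v.2) (m.h z)

end

section
variable {κ : Type} [Fintype κ] [DecidableEq κ] {X ι : κ → Type} [∀ j, Fintype (X j)] [∀ j, DecidableEq (X j)]
  [∀ j, Fintype (ι j)] [∀ j, DecidableEq (ι j)]

/-- the tuples of points of the domains of the maps -/
def domain {F : ∀ j, Family (X j) (ι j)} (m : ∀ j, Map (F j)) : Set ((Σ j, X j) → ℂ) :=
  {z | ∀ j, (fun i => z ⟨j, i⟩) ∈ (m j).D}

/-- The exceptional tuples `s` of points with coordinates in `K`: they are of height at most `T`, in the compact set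
`Inner (domain m) k`, and some nonzero small polynomial vanishes at the numbers `value (m j) s_j a`, `a ∈ A_j`. -/
def Exceptional {F : ∀ j, Family (X j) (ι j)} (m : ∀ j, Map (F j)) (A : ∀ j, Finset ((ι j × ι j) ⊕ X j)) (K : Type)
    [Field K] [NumberField K] (io : K →+* ℂ) (k : ℕ) (ξ : Fin k → ℂ) (T : ℝ) : Set ((Σ j, X j) → K) :=
  {s | (∀ i, HeightLe K T (s i)) ∧ (fun i => io (s i)) ∈ Inner (domain m) k ∧
    ∃ P : MvPolynomial (Σ j, A j) ℂ, Small K io k ξ T P ∧
      MvPolynomial.eval (fun a => value (m a.1) (fun i => io (s ⟨a.1, i⟩)) a.2.1) P = 0 ∧ P ≠ 0}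

/-- Let `F_j`, `j` in a finite set, be families over affine spaces, with arbitrary Galois groups, and let `h_j` be analytic
maps to their domains, the images of which have inner points. There are sets `A_j` of entries of the period matrices and of
coordinates, `|A_j|` being the dimension of the Galois group of `F_j`, and there is `ω → ∞` such that for all large `T`, all
number fields `K` of degree at most `ω T`, embedded in `ℂ`, and all complex numbers `ξ i`, `i < ω T`, the set
`Exceptional m A K io (ω T) ξ T` lies on at most `T ^ (1 / ω T)` hypersurfaces of degree at most `T ^ (1 / ω T)`, and has at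
most `T ^ (1 / ω T) * N ^ (d - 1)` elements, where `d` is the dimension of the product of the bases and `N` is the number of
the elements of `K` of height at most `T`. Outside of this set, for all points `s_j` with coordinates in `K` of height at
most `T` (in `Inner (domain m) (ω T)`), the `∑ dim galois (F_j)` numbers from the coordinates of `h_j(s_j)` and the entries
of `Y_j(h_j(s_j))` given by `A_j` satisfy no nonzero polynomial relation of partial degrees at most `ω T` with coefficients
`∑ ξ i * c i`, `c i` integers of `K` of size at most `T ^ ω T`. -/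
theorem result [Nonempty (Σ j, X j)] (F : ∀ j, Family (X j) (ι j)) (m : ∀ j, Map (F j)) :
    ∃ A : ∀ j, Finset ((ι j × ι j) ⊕ X j), (∀ j, (A j).card = dimension (F j).galois) ∧
    ∃ (ω : ℝ → ℕ) (T₀ : ℝ), Tendsto ω atTop atTop ∧ Monotone ω ∧ ∀ T, T₀ ≤ T → 0 < ω T ∧
      ∀ (K : Type) [Field K] [NumberField K], Module.finrank ℚ K ≤ ω T → ∀ (io : K →+* ℂ) (ξ : Fin (ω T) → ℂ),
        CoveredBy ⌊T ^ ((ω T : ℝ)⁻¹)⌋₊ ⌊T ^ ((ω T : ℝ)⁻¹)⌋₊
          ((fun s i => io (s i)) '' Exceptional m A K io (ω T) ξ T) ∧
        (Exceptional m A K io (ω T) ξ T).Finite ∧
        ((Exceptional m A K io (ω T) ξ T).ncard : ℝ) ≤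
          T ^ ((ω T : ℝ)⁻¹) * ({x : K | HeightLe K T x}.ncard : ℝ) ^ (Fintype.card (Σ j, X j) - 1) :=
  Pool.Agent.V11273.PV.main_pull (U := fun j => (F j).U) (U' := fun j => (m j).D) (Y := fun j => (F j).Y)
    (h := fun j => (m j).h) (fun j => (F j).connected)
    (fun j => (F j).isOpen) (fun j => (F j).nonempty) (fun j => (F j).analytic) (fun j => (F j).det_ne)
    (fun j => (F j).c_ne) (fun j => (F j).eqn) (fun j => (m j).connected) (fun j => (m j).isOpen)
    (fun j => (m j).nonempty) (fun j => (m j).analytic) (fun j => (m j).mapsTo) (fun j => (m j).inner)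

end

end Pool.Agent.Results.MP_12eca1_ag.AnyMonodromyGroup
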