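import Pool.Agent.Helper264.NT.NearR
import Pool.Agent.TH659.HY.Fun

/-!
# Hyperelliptic integrals at all tuples near all points outside of a set of dimension `n - 1`

Let `f` be a square-free real polynomial of degree `m`, positive on the open interval `(a, b)`, and `c` in `(a, b)`. The
integrals `I_i (t) = ∫_c^t s^i / √(f(s)) ds`, `0 ≤ i ≤ m - 2`, are integrals of the first and second kind (and the third
kind with poles at infinity) on the hyperelliptic curve `y² = f (x)` between the points with abscissa `c` and `t`. If `f`
and `c` are algebraic then for algebraic `q_1, …, q_n` in `(a, b)` they are periods of 1-motives, and the period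
conjecture predicts that `π` and the `n (m - 1)` numbers `I_i (q_l)` are algebraically independent for generic `f` and
`q_l`. A counting result of this pool (`HyperellipticIntegrals`) says that most of the rational tuples with denominators at
most `T` satisfy no relation of bounded degree and height; it allows `C T ^ (2 (n - 1) + β)` exceptions, `β` close to `2`,
and says nothing about the tuples near a given point.

Here there are no exceptional tuples: there is one subset `E` of `ℝ ^ n` of Hausdorff dimension at most `n - 1` such that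
for all `y` in `(a, b) ^ n` outside of `E`, all real number fields `K`, all degrees `d`, all `A` and ALL exponents `w > 0`
(arbitrarily small), no tuple `q` in `K ^ n` of height at most `T` with `|q - y| ≤ T ^ (-w)` satisfies a relation, even an
approximate one, of degree at most `d` and height at most `T ^ A`, if `T` is large. For `w < 1` and every `y` there are
such rational tuples for all large `T`. The bound for the dimension is sharp: if `y_1 = y_2` then there are rational
tuples with `q_1 = q_2` near `y`, so `E` contains these hyperplanes (if `m ≥ 2`).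

Proof: the exceptional tuples lie on `C T ^ ε` hypersurfaces of degree at most `D` (`Pool.Agent.Y771.KF.stdK` of helper771
and helper124, with the algebraic independence of the functions, helper659). The new part: the zeros of any nonzero
polynomial of degree at most `D` in a ball are covered by `C δ ^ (-s)` balls of radius `δ`, for every `s > n - 1`, where `C`
depends only on `n`, `D` and `s` (`Pool.Agent.Helper264.NT.cov_zeros`), so that the points near exceptional tuples form a
set of dimension at most `n - 1`.
-/

set_option autoImplicit false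

open Polynomial Height
open scoped ENNReal

namespace Pool.Agent.Results.MP_12eca1_ag.NearEveryPoint

/-- `I_i(t) = ∫_c^t s^i / √(f(s)) ds`. -/
noncomputable def I (f : ℝ[X]) (c : ℝ) (i : ℕ) (t : ℝ) : ℝ := ∫ s in c..t, s ^ i / √(f.eval s)

/-- The `1 + n (m - 1)` numbers `π` and `I_i(q_l)`, `0 ≤ i ≤ m - 2`, `l < n`, where `m` is the degree of `f`. -/
noncomputable def numbers {n : ℕ} (f : ℝ[X]) (c : ℝ) (q : Fin n → ℝ) (z : Option (Fin n × Fin (f.natDegree - 1))) : ℝ :=
  match z with
  | none => Real.pi
  | some (l, i) => I f c (i : ℕ) (q l)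

/-- every nonzero polynomial in `1 + n (m - 1)` variables with coefficients in `K` of height at most `T ^ A`, of degree at
most `d` in each variable, takes at the numbers `π`, `I_i(q_l)` a value of absolute value greater than `T ^ (-B)` -/
def NoRelation {n : ℕ} (f : ℝ[X]) (c : ℝ) {K : IntermediateField ℚ ℝ} [NumberField K] (d : ℕ) (A B T : ℝ)
    (q : Fin n → K) : Prop :=
  ∀ P : MvPolynomial (Option (Fin n × Fin (f.natDegree - 1))) K, P ≠ 0 → (∀ i, P.degreeOf i ≤ d) →
    (∀ s, mulHeight₁ (P.coeff s) ≤ T ^ A) →
      T ^ (-B) < |MvPolynomial.eval₂ (algebraMap K ℝ) (numbers f c fun j => (q j : ℝ)) P|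

/-- Let `f` be a square-free real polynomial of degree at least `1`, positive on `(a, b)`, `c` in `(a, b)` and `n ≥ 1`.
There is a subset `E` of `ℝ ^ n` of Hausdorff dimension at most `n - 1` such that for all `y` in `(a, b) ^ n` outside of
`E`, all real number fields `K`, all `d`, `A` and `w > 0` there are `B` and `T₀` such that for all `T ≥ T₀` all `n`-tuples
`q` of elements of `K` of height at most `T` with `|q_j - y_j| ≤ T ^ (-w)` have no relation. -/
theorem result (n : ℕ) (hn : 1 ≤ n) (f : ℝ[X]) (hf : Squarefree f) (hm : 1 ≤ f.natDegree) (a b c : ℝ)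
    (hpos : ∀ t : ℝ, a < t → t < b → 0 < f.eval t) (hc : a < c ∧ c < b) :
    ∃ E : Set (Fin n → ℝ), dimH E ≤ ((n - 1 : ℕ) : ℝ≥0∞) ∧ ∀ y ∉ E, (∀ j, a < y j ∧ y j < b) →
      ∀ (K : IntermediateField ℚ ℝ) [NumberField K] (d : ℕ) (A w : ℝ), 0 < w → ∃ B T₀ : ℝ, ∀ T ≥ T₀,
        ∀ q : Fin n → K, (∀ j, mulHeight₁ (q j) ≤ T ∧ |(q j : ℝ) - y j| ≤ T ^ (-w)) → NoRelation f c d A B T q := by
  have hnn : Nonempty (Fin n) := ⟨⟨0, hn⟩⟩
  have hpos' : ∀ t ∈ Set.Ioo a b, 0 < f.eval t := fun t ht => hpos t ht.1 ht.2
  have h1 : (a + c) / 2 < (c + b) / 2 := by linarith [hc.1, hc.2]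
  have hsub : Set.Icc ((a + c) / 2) ((c + b) / 2) ⊆ Set.Ioo a b :=
    fun t ht => ⟨by linarith [ht.1, hc.1], by linarith [ht.2, hc.2]⟩
  obtain ⟨E, hE1, hE2⟩ := Pool.Agent.Helper264.NT.mainR (X := Fin n) (κ := Fin (f.natDegree - 1))
    (fun _ i => TH659.HY.HI f c (i : ℕ)) (fun _ => Set.Ioo a b) (fun _ => isOpen_Ioo) (fun _ => isPreconnected_Ioo)
    (fun _ i t ht => TH659.HY.HI_an f a b hpos' c hc i t ht)
    (fun _ => Pool.Agent.Helper264.NT.aindepS_of_rindep _ _ _ (fun d =>
      TH659.HY.HI_ind f hf (f.natDegree - 1) d (by omega) _ _ h1 (fun t ht => hpos' t (hsub ht)) c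
        ⟨by linarith [hc.1], by linarith [hc.2]⟩) _ hsub)
  refine ⟨E, by simpa using hE1, fun y hy hyS K _ d A w hw => ?_⟩
  obtain ⟨B, T0, h⟩ := hE2 y hy hyS K d A w hw
  refine ⟨B, T0, fun T hT q hq P hP hd hc' => ?_⟩
  have h3 := (h T hT q hq).2 P hP hd hc'
  have h2 : (fun o : Option (Fin n × Fin (f.natDegree - 1)) => o.elim Real.pi
      fun z => TH659.HY.HI f c (z.2 : ℕ) (q z.1 : ℝ)) = numbers f c fun j => (q j : ℝ) := by
    funext o
    cases o <;> rfl
  rw [← h2]
  exact h3

end Pool.Agent.Results.MP_12eca1_ag.NearEveryPoint
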