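import Pool.Agent.V11219.TdRel

/-!
# André's inequality in bounded degree for almost all fibres of families of 1-motives over families of
abelian varieties with local monodromy conditions

Let `h_i`, `1 ≤ i ≤ k`, be families of G-functions over `ℚ` (with the conditions of Siegel and
Galochkin, regular singular with rational exponents at `0`) and let `P_i(x)` be square matrices of size
`p_i + q_i` whose entries are polynomials with complex coefficients in `log x` and in the functions
`h_{i,l}(x)`: the period matrices of families of 1-motives `M_{i,x} = [ℤ^{q_i} → A_{i,x}]`, where the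
`A_i = ∏_j A_ij` are families of abelian varieties over an open part of the line, near a rational
point which may be a point of degeneration, and the `q_i` points are algebraic sections. The first `p_i`
rows are the integrals over the cycles, the last `q_i` rows the integrals over the paths to the points
(abelian logarithms of the first and second kind). `β_i(b)` is the index of the factor of the `b`-th
cycle, `γ_i(a)` the index of the factor of the `a`-th point.

**Conditions** (`PathMonodromy`). Every element of `Gal(P_i)` is of the form `((g, 0), (w, 1))`; the group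
of the `g` satisfies the condition `LocalMonodromy` on the local monodromy: it is block diagonal,
respects the polarisations up to characters, acts strongly irreducibly on the pieces `H_1(A_ij)`, no
two of which are isomorphic up to scalars; for every piece there is an element `g`, with
`(g - 1) ^ 2 = 0` (the local monodromy around a point of semistable reduction), such that the rank
of `g - 1` on the piece and the multiplicities of the nonzero eigenvalues of the `(g - 1) (g' - 1)`,
for other elements `g'` of this type, are coprime, or contain the number two (or the variant with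
several elements). No nonzero linear combination of the cycles and paths is fixed by `Gal(P_i)`
(the sections are independent).

**Theorem.** Let `n_ij` be the rank of `H_1(A_ij)` and let
`δ = ∑_i (∑_j n_ij (n_ij + 1) / 2 + ∑_a n_{i, γ_i(a)})`: the dimension of the group
`∏_ij Sp_{n_ij} ⋉ ⨁_a (H_1(A_{i, γ_i(a)}))`. Let `C₀` be any matrix of complex numbers. For every `D`,
for almost all tuples of integers `t` (all but `C N^(k-1) ∑_i (1 + N / (x_i + N)^c)` of the tuples in
the box `∏_i (x_i, x_i + N]`, with `c > 0` and `C` which do not depend on `C₀`), if the periods of the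
fibres `M_{i, 1/t_i}` satisfy the Riemann relations, there is a set `V` of `δ` of these periods with
the following properties, for all number fields `K` of degree at most `D`.

1. The numbers in `V` satisfy no nonzero polynomial relation of degree at most `D` whose coefficients
   are values of polynomials of degree at most `D` over `K` at the entries of `C₀`: in degree at most
   `D`, they are algebraically independent over the field `K(C₀)`.
2. Let `V₀` be a set of entries of `C₀` which satisfy no nonzero relation of degree at most `D` over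
   `K`. Then `V₀ ∪ V` satisfy no nonzero relation of degree at most `D` over `K`.
3. If `2πi` is an entry of `C₀` then `2πi` and the numbers in `V` satisfy no nonzero relation of degree
   at most `D` over `K`.

Let `M_0` be a motive over any field `k ⊂ ℂ`, with the period matrix `C₀`, such that `ℚ(1)` is in
`⟨M_0⟩^⊗`. The kernel of `G_mot(M_0 ⊕ ⨁ M_i) → G_mot(M_0)` respects the pieces, the points and the
polarisations, hence it is contained in a group of dimension `δ`. So, in degree at most `D`, the
transcendence degree of the periods of `M_0 ⊕ ⨁ M_i` is at least the sum of the transcendence degree of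
the periods of `M_0` and of `dim G_mot(M_0 ⊕ ⨁ M_i) - dim G_mot(M_0)`: if the inequality of André is true
for `M_0` then it is true in bounded degree for `M_0 ⊕ ⨁ M_i`. By 3 the inequality is true in bounded
degree for `⨁ M_i`, which is a motive over `ℚ`: `2πi` and the numbers in `V` are at least
`dim G_mot(⨁ M_i)` periods without relations.

Moreover there are `D(N) → ∞` and `ε(N) → 0` such that for all but `ε(N) N^k` tuples `t` in `[1, N]^k`
this is true with `D(N)` instead of `D`.

Proof. By the theorem on extremal elements (see `MP_90d181_ag`) and a theorem on the radical (see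
`MP_4b482e_nt`) the identity component of `Gal(P_i)` contains all matrices `((g, 0), (w, 1))` with an
isometry `g` of the polarisations of the pieces and `w` compatible with the pieces. By the theorem on
values of G-functions of helper120 and the theorem of helper273 on all number fields at once, the
relations of bounded degree of the period point are relations of its translates under this group. The
derivatives of such relations along the lines `1 + s N`, `N` an extremal element or an element of the
radical, vanish, and these `N` span a space of dimension `δ`. Hence for suitable `δ` entries all partial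
derivatives of a relation between these entries are relations between them; as their degrees are
smaller, an induction shows that there is no nonzero relation.
-/

set_option autoImplicit false

open PowerSeries Filter
open scoped Matrix

namespace Pool.Agent.Results.MP_12eca1_ag.RelativeTranscendenceDegree

open Pool.Agent.V11219.Per Pool.Agent.V11219.Om Pool.Agent.V11219.Td

theorem iter_eq {r : ℕ} (T : Polynomial ℤ) (A : Fin r → Fin r → Polynomial ℤ) (s : ℕ) :
    iter T A s = Pool.Agent.Y120.GH.itm T A s := by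
  induction s with
  | zero => rfl
  | succ s ih =>
    funext i j
    rw [iter, Pool.Agent.Y120.GH.itm, ih]

theorem qu_eq {r : ℕ} {T : Polynomial ℤ} {A : Fin r → Fin r → Polynomial ℤ}
    (h : QuasiUnipotent T A) : Pool.Agent.Y120.GH.QU0 T A := by
  obtain ⟨e, M, K, Φ, he, hdet, hc, heq⟩ := h
  have he0 : e ≠ 0 := by omega
  refine ⟨e, he0, M, K, Φ, hc, fun i j n => ?_, hdet⟩
  have h1 := heq i j n
  simp only [atPow] at h1
  rw [Pool.Agent.Y120.GH.expand_poly he0]
  simp only [Pool.Agent.Y120.GH.expand_poly he0]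
  exact h1

theorem fam {r : ℕ} {T : Polynomial ℤ} {A : Fin r → Fin r → Polynomial ℤ}
    {h : Fin r → PowerSeries ℚ} (hG : GFamily T A h) (δ : ℕ) : Pool.Agent.Y120.R.Fam δ h :=
  ⟨hG.size, Pool.Agent.Y120.GH.family_main hG.T_ne hG.ode hG.size hG.den (by
    obtain ⟨C, hC⟩ := hG.galochkin
    refine ⟨C, fun m => ?_⟩
    obtain ⟨d, h1, h2, h3⟩ := hC m
    refine ⟨d, h1, h2, fun s hs i' j' => ?_⟩
    rw [← iter_eq]
    exact h3 s hs i' j') (qu_eq hG.regular) δ⟩

section
variable {k r : ℕ} {p q ρ : Fin k → ℕ}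

/-- The numbers `x v` satisfy no nonzero polynomial relation of degree at most `d` with coefficients in
the set `S`. -/
def NoRelation {J : Type} (S : Set ℂ) (d : ℕ) (x : J → ℂ) : Prop :=
  ∀ F : MvPolynomial J ℂ, F.totalDegree ≤ d → (∀ s, F.coeff s ∈ S) → MvPolynomial.eval x F = 0 → F = 0

/-- The values of the polynomials over `K` of degree at most `d` at the entries of `C₀`. -/
def Values (K : Subfield ℂ) (d : ℕ) (C₀ : Matrix (Fin r) (Fin r) ℂ) : Set ℂ :=
  {x | ∃ R : MvPolynomial (Fin r × Fin r) ℂ, R.totalDegree ≤ d ∧ (∀ s, R.coeff s ∈ K) ∧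
    MvPolynomial.eval (fun b => C₀ b.1 b.2) R = x}

/-- The dimension `∑_i (∑_j n_ij (n_ij + 1) / 2 + ∑_a n_{i, γ_i(a)})`. -/
def dimension {m : Fin k → ℕ} (β : ∀ i, Fin (p i) → Fin (m i)) (γ : ∀ i, Fin (q i) → Fin (m i)) : ℕ :=
  ∑ i, ((∑ j, (Finset.univ.filter fun a => β i a = j).card *
    ((Finset.univ.filter fun a => β i a = j).card + 1) / 2) +
    ∑ b, (Finset.univ.filter fun a => β i a = γ i b).card)

/-- The conclusion for one tuple; `Z i` is the period matrix of the fibre of the `i`-th family. -/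
def Good (D : ℕ) (C₀ : Matrix (Fin r) (Fin r) ℂ) (h : ∀ i, Fin (ρ i) → PowerSeries ℚ)
    (P : ∀ i, Fin (p i + q i) → Fin (p i + q i) → MvPolynomial (Option (Fin (ρ i))) ℂ)
    (Z : ∀ i, Matrix (Fin (p i + q i)) (Fin (p i + q i)) ℂ) : Prop :=
  ∀ (m : Fin k → ℕ) (β : ∀ i, Fin (p i) → Fin (m i)) (γ : ∀ i, Fin (q i) → Fin (m i))
    (B Q : ∀ i, Matrix (Fin (p i)) (Fin (p i)) ℂ) (μ : ∀ i, Fin (m i) → ℂ),
  (∀ i, PathMonodromy (β i) (γ i) (B i) (Gal (h i) (P i))) →
  (∀ i j, μ i j ≠ 0) → RespectsAll β γ B Q μ Z →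
  -- `V` is a set of entries of the period matrices
  ∃ V : Finset (Σ i, Fin (p i + q i) × Fin (p i + q i)), V.card = dimension β γ ∧
  ∀ K : Subfield ℂ, FiniteDimensional ℚ K → Module.finrank ℚ K ≤ D →
  -- 1: the relative form
  NoRelation (Values K D C₀) D (fun v : V => Z v.1.1 v.1.2.1 v.1.2.2) ∧
  -- 2: together with entries of `C₀`
  (∀ V₀ : Finset (Fin r × Fin r), NoRelation (K : Set ℂ) D (fun v : V₀ => C₀ v.1.1 v.1.2) →
    NoRelation (K : Set ℂ) D (Sum.elim (fun v : V₀ => C₀ v.1.1 v.1.2)
      fun v : V => Z v.1.1 v.1.2.1 v.1.2.2)) ∧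
  -- 3: the absolute form
  ((∃ a b, C₀ a b = 2 * Real.pi * Complex.I) → NoRelation (K : Set ℂ) D
    (fun o : Option V => o.elim (2 * Real.pi * Complex.I : ℂ)
      fun v : V => Z v.1.1 v.1.2.1 v.1.2.2))

theorem good_of {D : ℕ} {C₀ : Matrix (Fin r) (Fin r) ℂ} {h : ∀ i, Fin (ρ i) → PowerSeries ℚ}
    {P : ∀ i, Fin (p i + q i) → Fin (p i + q i) → MvPolynomial (Option (Fin (ρ i))) ℂ}
    {t : Fin k → ℕ} (hg : Pool.Agent.V11273.GH.GoodI (D + D) C₀ h P t) :
    Good D C₀ h P fun i => perMat (h i) (P i) (t i : ℝ) := by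
  intro m β γ B Q μ hL hμ hZ
  have hZu : ∀ i, IsUnit (perMat (h i) (P i) (t i : ℝ)) := by
    intro i
    obtain ⟨X, w, hXe, hw, hXb, hXQ⟩ := hZ i
    have hXu := respects_unit (hL i).cycles.form.unit (hμ i) hXQ
    obtain ⟨U, rfl⟩ := hXu
    have hXe' : perMat (h i) (P i) (t i : ℝ) =
      Pool.Agent.V11219.Om.ext (U : Matrix (Fin (p i)) (Fin (p i)) ℂ) w := hXe
    rw [hXe']
    have h1 : ext (U : Matrix (Fin (p i)) (Fin (p i)) ℂ) w *
        ext ((U⁻¹ : (Matrix (Fin (p i)) (Fin (p i)) ℂ)ˣ) : Matrix (Fin (p i)) (Fin (p i)) ℂ)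
          (-(w * ((U⁻¹ : (Matrix (Fin (p i)) (Fin (p i)) ℂ)ˣ) :
            Matrix (Fin (p i)) (Fin (p i)) ℂ))) = 1 := by
      rw [ext_mul, add_neg_cancel, ← Units.val_mul, mul_inv_cancel, Units.val_one, ext_one]
    exact ⟨⟨_, _, h1, mul_eq_one_comm.1 h1⟩, rfl⟩
  obtain ⟨V, hV, hind⟩ := exists_indep (r := r) (γ := γ) (fun i => (hL i).cycles.form.unit)
    (fun i => (hL i).cycles.form.skew) (fun i => (hL i).cycles.form.block) hZu
  refine ⟨V, hV, ?_⟩
  intro K hKf hKD
  have hKalg : ∀ x ∈ K, IsAlgebraic ℚ x := by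
    intro x hx
    have : NumberField K := { to_charZero := inferInstance, to_finiteDimensional := hKf }
    have h6 : IsAlgebraic ℚ (⟨x, hx⟩ : K) := Algebra.IsAlgebraic.isAlgebraic _
    exact h6.algebraMap (A := ℂ)
  have hR := relE_of hg hKf (hKD.trans (Nat.le_add_right _ _)) hL
  have h1 := hind K D C₀ hR
  refine ⟨h1, ?_, ?_⟩
  · intro V₀ h0 F hFd hFK hF
    exact sum_indep h0 h1 hFd hFK hF
  · rintro ⟨a, b, hab⟩ F hFd hFK hF
    exact abs_indep hKalg hab h1 hFd hFK hF

end

/-- **The theorem.** -/
theorem result (k e r : ℕ) (ρ p q : Fin k → ℕ) (T : Fin k → Polynomial ℤ)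
    (A : ∀ i, Fin (ρ i) → Fin (ρ i) → Polynomial ℤ) (h : ∀ i, Fin (ρ i) → PowerSeries ℚ)
    (hG : ∀ i, GFamily (T i) (A i) (h i)) :
    -- relations of degree at most `D`
    (∀ D : ℕ, ∃ c C : ℝ, 0 < c ∧ 0 ≤ C ∧
      ∀ P : ∀ i, Fin (p i + q i) → Fin (p i + q i) → MvPolynomial (Option (Fin (ρ i))) ℂ,
      (∀ i a b, (P i a b).totalDegree ≤ e) → ∀ C₀ : Matrix (Fin r) (Fin r) ℂ,
      ∀ (x : Fin k → ℕ) (N : ℕ), 1 ≤ N →
      (({t : Fin k → ℕ | (∀ i, x i < t i ∧ t i ≤ x i + N) ∧
        ¬ Good D C₀ h P fun i => perMat (h i) (P i) (t i : ℝ)}.ncard : ℕ) : ℝ) ≤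
        C * (N : ℝ) ^ (k - 1) * ∑ i, (1 + N / ((x i : ℝ) + N) ^ c)) ∧
    -- relations of degree at most `D N`, which tends to infinity
    (∃ (D : ℕ → ℕ) (δ : ℕ → ℝ), Tendsto D atTop atTop ∧ Tendsto δ atTop (nhds 0) ∧
      ∀ P : ∀ i, Fin (p i + q i) → Fin (p i + q i) → MvPolynomial (Option (Fin (ρ i))) ℂ,
      (∀ i a b, (P i a b).totalDegree ≤ e) → ∀ C₀ : Matrix (Fin r) (Fin r) ℂ, ∀ N : ℕ, 1 ≤ N →
      (({t : Fin k → ℕ | (∀ i, 1 ≤ t i ∧ t i ≤ N) ∧
        ¬ Good (D N) C₀ h P fun i => perMat (h i) (P i) (t i : ℝ)}.ncard : ℕ) : ℝ) ≤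
        δ N * (N : ℝ) ^ k) := by
  classical
  have hmain : ∀ D : ℕ, ∃ c C : ℝ, 0 < c ∧ 0 ≤ C ∧
      ∀ P : ∀ i, Fin (p i + q i) → Fin (p i + q i) → MvPolynomial (Option (Fin (ρ i))) ℂ,
      (∀ i a b, (P i a b).totalDegree ≤ e) → ∀ C₀ : Matrix (Fin r) (Fin r) ℂ,
      ∀ (x : Fin k → ℕ) (N : ℕ), 1 ≤ N →
      (({t : Fin k → ℕ | (∀ i, x i < t i ∧ t i ≤ x i + N) ∧
        ¬ Good D C₀ h P fun i => perMat (h i) (P i) (t i : ℝ)}.ncard : ℕ) : ℝ) ≤
        C * (N : ℝ) ^ (k - 1) * ∑ i, (1 + N / ((x i : ℝ) + N) ^ c) := by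
    intro D
    obtain ⟨c, C, hc, hC, hmain⟩ := Pool.Agent.V11273.GH.idc_main k (D + D) e r ρ
      (fun i => p i + q i) h fun i δ => fam (hG i) δ
    refine ⟨c, C, hc, hC, ?_⟩
    intro P hP C₀ x N hN
    set E := {t : Fin k → ℕ | (∀ i, x i < t i ∧ t i ≤ x i + N) ∧
        ¬ Good D C₀ h P fun i => perMat (h i) (P i) (t i : ℝ)} with hE
    have hfin : E.Finite := by
      refine (Set.finite_Iic (fun i : Fin k => x i + N)).subset ?_
      intro t ht i
      exact (ht.1 i).2
    rw [Set.ncard_eq_toFinset_card E hfin]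
    refine hmain P hP C₀ x N hN _ fun t ht => ?_
    have ht' : t ∈ E := hfin.mem_toFinset.1 ht
    exact ⟨ht'.1, fun hgood => ht'.2 (good_of hgood)⟩
  refine ⟨hmain, ?_⟩
  choose c C hc hC hcount using hmain
  obtain ⟨D, hD, hδ⟩ := Pool.Agent.Y123.GN.diag_seq
    (fun D N => C D * k * (1 / (N : ℝ) + 1 / (N : ℝ) ^ (c D))) (by
      intro D
      have h1 : Tendsto (fun N : ℕ => (1 : ℝ) / (N : ℝ)) atTop (nhds 0) :=
        tendsto_one_div_atTop_nhds_zero_nat
      have h2 : Tendsto (fun N : ℕ => (1 : ℝ) / (N : ℝ) ^ (c D)) atTop (nhds 0) := by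
        have h3 := (tendsto_rpow_atTop (hc D)).comp tendsto_natCast_atTop_atTop
        have h4 := h3.inv_tendsto_atTop
        refine h4.congr fun N => ?_
        rw [one_div]
        rfl
      have h5 := (h1.add h2).const_mul (C D * k)
      rw [add_zero, mul_zero] at h5
      exact h5)
  refine ⟨D, _, hD, hδ, ?_⟩
  intro P hP C₀ N hN
  have h1 := hcount (D N) P hP C₀ (fun _ => 0) N hN
  have h2 : {t : Fin k → ℕ | (∀ i, 0 < t i ∧ t i ≤ 0 + N) ∧
      ¬ Good (D N) C₀ h P fun i => perMat (h i) (P i) (t i : ℝ)} =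
      {t : Fin k → ℕ | (∀ i, 1 ≤ t i ∧ t i ≤ N) ∧
      ¬ Good (D N) C₀ h P fun i => perMat (h i) (P i) (t i : ℝ)} := by
    ext t
    simp only [Set.mem_setOf_eq, zero_add, Nat.lt_iff_add_one_le]
  rw [h2] at h1
  refine h1.trans (le_of_eq ?_)
  have hN0 : (N : ℝ) ≠ 0 := by
    have : N ≠ 0 := by omega
    exact_mod_cast this
  rw [Finset.sum_const, Finset.card_univ, Fintype.card_fin, nsmul_eq_mul, Nat.cast_zero, zero_add]
  rcases Nat.eq_zero_or_pos k with hk | hk
  · subst hk
    simp
  · obtain ⟨s, rfl⟩ : ∃ s, k = s + 1 := ⟨k - 1, by omega⟩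
    have h3 : (N : ℝ) ^ (s + 1) = (N : ℝ) ^ s * N := pow_succ _ _
    rw [Nat.add_sub_cancel, h3]
    have h4 : (1 : ℝ) + N / (N : ℝ) ^ (c (D N)) = N * (1 / (N : ℝ) + 1 / (N : ℝ) ^ (c (D N))) := by
      rw [mul_add, mul_one_div_cancel hN0, mul_one_div]
    rw [h4]
    ring

end Pool.Agent.Results.MP_12eca1_ag.RelativeTranscendenceDegree
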