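import Pool.Agent.Results.MP_12eca1_ag.AlgebraicFibres
import Pool.Agent.V11286.NE.Roots

/-!
# Families of G-functions at ALL tuples of algebraic integers in windows around almost every direction

Near a point `x = 0` of the base the periods of a family of varieties over `P¹`, defined over `ℚ`, are polynomials in
`log x`, in G-functions `h_1(x), ..., h_r(x)` with rational coefficients and in constants (the periods of the limit
motive). Let `v_1, v_2, …` tend to infinity faster than every power (for instance `v_N = 2 ^ N`) and let `M` be a countable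
set of complex numbers (for instance the field generated by all periods). For almost all real `k × m`-matrices `A` the
following holds for all `δ`, `d` and all finite subsets `S` of `M`. For all large `N` and ALL `k`-tuples of algebraic integers
`α_i` of degree `m` such that the coefficient of `X ^ j` in the minimal polynomial of `α_i` is at most `v_N ^ ϑ` away from
`A_ij v_N ^ (m - j)`, every polynomial relation of degree at most `δ` between (all determinations of) the `log α_i` and the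
numbers `h_l(1 / α_i)` with coefficients in the span of `S` over a number field of degree at most `d` is a consequence of
the specialisations of the functional relations: it vanishes on the whole product of the fibres (connected families),
respectively on all irreducible sets through the point in the product of the fibres. The exponent `ϑ > 0` depends only on
the family, on `k`, `m`, `δ`, `d` and the number of elements of `S`.

The proof: the count of the exceptional tuples in boxes (library `Pool.Agent.Y916.Af`, starting result `AlgebraicFibres`),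
which is uniform in `S`, a weighted covering argument and the lemma of Borel and Cantelli.
-/

set_option autoImplicit false

namespace Pool.Agent.Results.MP_12eca1_ag.WindowsOfAlgebraicIntegers

open MeasureTheory Polynomial AlgebraicFibres

/-- the real numbers `v_N ≥ 1` tend to infinity so fast that `∑ v_N ^ (-s) < ∞` for all `s > 0`, for instance
`v_N = 2 ^ N` -/
def Fast (v : ℕ → ℝ) : Prop := (∀ n, 1 ≤ v n) ∧ ∀ s : ℝ, 0 < s → Summable fun n : ℕ => (v n) ^ (-s)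

/-- The `α_i` are algebraic integers of degree `m`, with minimal polynomials `f_i` such that the coefficient of `X ^ j` in
`f_i` is at most `v ^ t` away from `A_ij v ^ (m - j)` for all `j < m`. -/
def InWindows {k m : ℕ} (A : Fin k × Fin m → ℝ) (v t : ℝ) (α : Fin k → ℂ) : Prop :=
  ∃ f : Fin k → ℤ[X], (∀ i, (f i).Monic ∧ (f i).natDegree = m ∧ Irreducible (f i) ∧ aeval (α i) (f i) = 0) ∧
    ∀ (i : Fin k) (j : Fin m), |((f i).coeff j : ℝ) - A (i, j) * v ^ (m - (j : ℕ))| ≤ v ^ t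

/-- **Main result.** -/
theorem result {r : ℕ} (T₀ : Polynomial ℤ) (B : Fin r → Fin r → Polynomial ℤ) (h : Fin r → PowerSeries ℚ)
    (hG : GFamily T₀ B h) (k m : ℕ) (hk : 1 ≤ k) (hm : 1 ≤ m) :
    Fast (fun n => (2 : ℝ) ^ n) ∧
    ∃ ϑ : ℕ → ℕ → ℕ → ℝ, (∀ δ d D, 0 < ϑ δ d D) ∧ ∀ v : ℕ → ℝ, Fast v →
      ∀ M : Set ℂ, M.Countable → ∀ᵐ A : Fin k × Fin m → ℝ,
        ∀ (δ d : ℕ) (S : Finset ℂ), (S : Set ℂ) ⊆ M →
          ∃ N₀ : ℕ, ∀ N : ℕ, N₀ ≤ N → ∀ α : Fin k → ℂ, InWindows A (v N) (ϑ δ d S.card) α →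
            Good h δ d (Submodule.span ℚ (S : Set ℂ)) α ∧
              (Connected h → VeryGood h δ d (Submodule.span ℚ (S : Set ℂ)) α) := by
  classical
  set Bad : ℕ → ℕ → Submodule ℚ ℂ → Set (Fin k → ℂ) := fun δ d V =>
    {α | ¬ Good h δ d V α ∨ (Connected h ∧ ¬ VeryGood h δ d V α)} with hBad
  have key : ∀ (δ d D : ℕ), ∃ c C : ℝ, 0 < c ∧ 0 ≤ C ∧ (
      ∀ V : Submodule ℚ ℂ, Module.Finite ℚ V → Module.finrank ℚ V ≤ D → ∀ T : ℕ, 1 ≤ T →
        {α : Fin k → ℂ | (∀ i, Pool.Agent.Y916.Sl.AInt m T (α i)) ∧ α ∈ Bad δ d V}.Finite ∧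
        ({α : Fin k → ℂ | (∀ i, Pool.Agent.Y916.Sl.AInt m T (α i)) ∧ α ∈ Bad δ d V}.ncard : ℝ) ≤
          C * (T : ℝ) ^ (((k * Pool.Agent.Y916.Sl.Mm m : ℕ) : ℝ) - c)) := by
    intro δ d D
    obtain ⟨c₂, hc₂, C₂, hC₂, h₂⟩ := Pool.Agent.Y916.Af.tupT2 Pool.Agent.Y916.Af.nr Pool.Agent.Y916.Af.t_br2 hG.fam
      k m δ d D
    have h₃ : ∃ c : ℝ, 0 < c ∧ ∃ C : ℝ, 0 ≤ C ∧ (Connected h → ∀ V : Submodule ℚ ℂ, Module.Finite ℚ V →
        Module.finrank ℚ V ≤ D → ∀ T : ℕ, 1 ≤ T →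
        {α : Fin k → ℂ | (∀ i, Pool.Agent.Y916.Sl.AInt m T (α i)) ∧ Pool.Agent.Y916.Af.ExcC h δ d V α}.Finite ∧
        ({α : Fin k → ℂ | (∀ i, Pool.Agent.Y916.Sl.AInt m T (α i)) ∧ Pool.Agent.Y916.Af.ExcC h δ d V α}.ncard : ℝ) ≤
          C * (T : ℝ) ^ (((k * Pool.Agent.Y916.Sl.Mm m : ℕ) : ℝ) - c)) := by
      by_cases hc : Connected h
      · obtain ⟨c, hc0, C, hC0, h3⟩ := Pool.Agent.Y916.Af.tupC Pool.Agent.Y916.Af.nr Pool.Agent.Y916.Af.t_br2
          Pool.Agent.Y916.Af.conn hG.fam hc k m δ d D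
        exact ⟨c, hc0, C, hC0, fun _ => h3⟩
      · exact ⟨1, one_pos, 0, le_rfl, fun h => absurd h hc⟩
    obtain ⟨c₃, hc₃, C₃, hC₃, h₃⟩ := h₃
    refine ⟨min c₂ c₃, C₂ + C₃, lt_min hc₂ hc₃, by linarith, fun V hV hVD T hT => ?_⟩
    have hT1 : (1 : ℝ) ≤ T := by exact_mod_cast hT
    obtain ⟨hf, hle⟩ := h₂ V hV hVD T hT
    have hgood : ∀ α : Fin k → ℂ, ¬ Good h δ d V α → Pool.Agent.Y916.Af.ExcT h δ d V α := by
      intro α hα2
      simp only [Good, HoldOn, not_forall] at hα2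
      obtain ⟨ℓ, hℓ, Y, hY, hmem, hsub, L, hL1, hL2, P, hP1, hP2, hP3, y, hy, hyP⟩ := hα2
      exact ⟨ℓ, hℓ, Y, hY, hmem, fun y hy j => hsub hy j, L, hL1, hL2, P, hP1, hP2, hP3, y, hy, hyP⟩
    have hvgood : ∀ α : Fin k → ℂ, ¬ VeryGood h δ d V α → Pool.Agent.Y916.Af.ExcC h δ d V α := by
      intro α hα2
      simp only [VeryGood, HoldOn, not_forall] at hα2
      obtain ⟨ℓ, hℓ, L, hL1, hL2, P, hP1, hP2, hP3, y, hy, hyP⟩ := hα2
      exact ⟨ℓ, hℓ, L, hL1, hL2, P, hP1, hP2, hP3, y, hy, hyP⟩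
    by_cases hcon : Connected h
    · obtain ⟨hf', hle'⟩ := h₃ hcon V hV hVD T hT
      have hsub : {α : Fin k → ℂ | (∀ i, Pool.Agent.Y916.Sl.AInt m T (α i)) ∧ α ∈ Bad δ d V} ⊆
          {α : Fin k → ℂ | (∀ i, Pool.Agent.Y916.Sl.AInt m T (α i)) ∧ Pool.Agent.Y916.Af.ExcT h δ d V α} ∪
          {α : Fin k → ℂ | (∀ i, Pool.Agent.Y916.Sl.AInt m T (α i)) ∧ Pool.Agent.Y916.Af.ExcC h δ d V α} := by
        rintro α ⟨hα1, hα2 | ⟨-, hα2⟩⟩
        · exact Or.inl ⟨hα1, hgood α hα2⟩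
        · exact Or.inr ⟨hα1, hvgood α hα2⟩
      refine ⟨(hf.union hf').subset hsub, ?_⟩
      have h1 := (Set.ncard_le_ncard hsub (hf.union hf')).trans (Set.ncard_union_le _ _)
      calc _ ≤ (({α : Fin k → ℂ | (∀ i, Pool.Agent.Y916.Sl.AInt m T (α i)) ∧
            Pool.Agent.Y916.Af.ExcT h δ d V α}.ncard : ℕ) : ℝ) + (({α : Fin k → ℂ |
            (∀ i, Pool.Agent.Y916.Sl.AInt m T (α i)) ∧ Pool.Agent.Y916.Af.ExcC h δ d V α}.ncard : ℕ) : ℝ) := by
            exact_mod_cast h1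
        _ ≤ C₂ * (T : ℝ) ^ (((k * Pool.Agent.Y916.Sl.Mm m : ℕ) : ℝ) - c₂) +
            C₃ * (T : ℝ) ^ (((k * Pool.Agent.Y916.Sl.Mm m : ℕ) : ℝ) - c₃) := add_le_add hle hle'
        _ ≤ C₂ * (T : ℝ) ^ (((k * Pool.Agent.Y916.Sl.Mm m : ℕ) : ℝ) - min c₂ c₃) +
            C₃ * (T : ℝ) ^ (((k * Pool.Agent.Y916.Sl.Mm m : ℕ) : ℝ) - min c₂ c₃) := by
            refine add_le_add (mul_le_mul_of_nonneg_left (Real.rpow_le_rpow_of_exponent_le hT1 ?_) hC₂)
              (mul_le_mul_of_nonneg_left (Real.rpow_le_rpow_of_exponent_le hT1 ?_) hC₃)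
            · linarith [min_le_left c₂ c₃]
            · linarith [min_le_right c₂ c₃]
        _ = _ := by ring
    · have hsub : {α : Fin k → ℂ | (∀ i, Pool.Agent.Y916.Sl.AInt m T (α i)) ∧ α ∈ Bad δ d V} ⊆
          {α : Fin k → ℂ | (∀ i, Pool.Agent.Y916.Sl.AInt m T (α i)) ∧ Pool.Agent.Y916.Af.ExcT h δ d V α} := by
        rintro α ⟨hα1, hα2 | ⟨hα3, hα2⟩⟩
        · exact ⟨hα1, hgood α hα2⟩
        · exact absurd hα3 hcon
      refine ⟨hf.subset hsub, ?_⟩
      calc _ ≤ (({α : Fin k → ℂ | (∀ i, Pool.Agent.Y916.Sl.AInt m T (α i)) ∧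
            Pool.Agent.Y916.Af.ExcT h δ d V α}.ncard : ℕ) : ℝ) := by exact_mod_cast Set.ncard_le_ncard hsub hf
        _ ≤ C₂ * (T : ℝ) ^ (((k * Pool.Agent.Y916.Sl.Mm m : ℕ) : ℝ) - c₂) := hle
        _ ≤ (C₂ + C₃) * (T : ℝ) ^ (((k * Pool.Agent.Y916.Sl.Mm m : ℕ) : ℝ) - min c₂ c₃) := by
            refine mul_le_mul (by linarith) (Real.rpow_le_rpow_of_exponent_le hT1 ?_) (by positivity) (by positivity)
            linarith [min_le_left c₂ c₃]
  choose c C hc hC0 hC using key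
  refine ⟨⟨fun n => one_le_pow₀ (by norm_num), fun s hs => Pool.Agent.V11286.NE.sum_two s hs⟩,
    fun δ d D => Pool.Agent.V11286.NE.expo k m (c δ d D),
    fun δ d D => Pool.Agent.V11286.NE.expo_pos hk hm (hc δ d D), ?_⟩
  intro v hv M hM
  have : Countable M := hM.to_subtype
  have main : ∀ᵐ A : Fin k × Fin m → ℝ, ∀ (δ d : ℕ) (S : Finset M),
      ∃ N₀ : ℕ, ∀ N : ℕ, N₀ ≤ N → ∀ f : Fin k → ℤ[X],
      (∀ i, (f i).Monic ∧ (f i).natDegree = m ∧ Irreducible (f i)) →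
        (∀ (i : Fin k) (j : Fin m), |((f i).coeff j : ℝ) - A (i, j) * (v N) ^ (m - (j : ℕ))| ≤
          (v N) ^ Pool.Agent.V11286.NE.expo k m (c δ d S.card)) → ∀ α : Fin k → ℂ, (∀ i, aeval (α i) (f i) = 0) →
            α ∉ Bad δ d (Submodule.span ℚ ((S.map ⟨Subtype.val, Subtype.val_injective⟩ :
              Finset ℂ) : Set ℂ)) := by
    rw [ae_all_iff]; intro δ
    rw [ae_all_iff]; intro d
    rw [ae_all_iff]; intro S
    have hVf : Module.Finite ℚ (Submodule.span ℚ ((S.map ⟨Subtype.val, Subtype.val_injective⟩ :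
        Finset ℂ) : Set ℂ)) := Module.Finite.span_finset ℚ _
    have hVd : Module.finrank ℚ (Submodule.span ℚ ((S.map ⟨Subtype.val, Subtype.val_injective⟩ :
        Finset ℂ) : Set ℂ)) ≤ S.card := by
      refine (finrank_span_finset_le_card _).trans ?_
      rw [Finset.card_map]
    exact Pool.Agent.V11286.NE.roots_ae hk hm _ (hc δ d S.card) (hC0 δ d S.card)
      (hC δ d S.card _ hVf hVd) hv.1 hv.2
  filter_upwards [main] with A hA δ d S hS
  obtain ⟨S', hS'⟩ : ∃ S' : Finset M, S = S'.map ⟨Subtype.val, Subtype.val_injective⟩ := by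
    refine ⟨S.subtype (· ∈ M), ?_⟩
    ext x
    simp only [Finset.mem_map, Finset.mem_subtype, Function.Embedding.coeFn_mk, Subtype.exists, exists_and_right,
      exists_eq_right]
    exact ⟨fun h => ⟨hS h, h⟩, fun ⟨_, h⟩ => h⟩
  obtain ⟨N₀, hN₀⟩ := hA δ d S'
  have hcd : S'.card = S.card := by rw [hS', Finset.card_map]
  refine ⟨N₀, fun N hN α hα => ?_⟩
  obtain ⟨f, hf, hnear⟩ := hα
  rw [← hcd] at hnear
  have h1 := hN₀ N hN f (fun i => ⟨(hf i).1, (hf i).2.1, (hf i).2.2.1⟩) hnear α (fun i => (hf i).2.2.2)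
  rw [← hS'] at h1
  simp only [hBad, Set.mem_ofPred_eq, not_or, not_not, not_and] at h1
  exact h1

end Pool.Agent.Results.MP_12eca1_ag.WindowsOfAlgebraicIntegers
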